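import Pool.Agent.Y329.NS.Stm

/-!
# Project NS: A1, A2, N, L, G
-/

set_option autoImplicit false

namespace Pool.Agent.Y179.NS

open Pool.Agent.Y329.NS
open Pool.Agent.TH91.RF Pool.Agent.TH91.NB
open scoped commutatorElement

section chain

variable {m : ℕ} {L J : Submodule ℝ (Mat m)}

/-- the lower central series of an ideal -/
def gs (L J : Submodule ℝ (Mat m)) : ℕ → Submodule ℝ (Mat m)
  | 0 => J
  | n + 1 => brk L (gs L J n)

theorem gs_idl (h : Idl L J) (n : ℕ) : Idl L (gs L J n) := by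
  induction n with
  | zero => exact h
  | succ n ih => exact ih.brk

theorem gs_succ_le (h : Idl L J) (n : ℕ) : gs L J (n + 1) ≤ gs L J n := (gs_idl h n).brk_le

theorem gs_le_J (h : Idl L J) (n : ℕ) : gs L J n ≤ J := by
  induction n with
  | zero => exact le_rfl
  | succ n ih => exact (gs_succ_le h n).trans ih

theorem gs_le (hL : LieSub L) (h : Idl L J) (n : ℕ) : gs L J n ≤ J887.FR m (n + 1) := by
  induction n with
  | zero => exact h.le.trans hL.le
  | succ n ih =>
    change brk L (gs L J n) ≤ _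
    unfold brk
    rw [Submodule.span_le]
    rintro _ ⟨x, hx, y, hy, rfl⟩
    have h1 : x * y ∈ J887.FR m (n + 1 + 1) := by
      have := (J887.matFiltR m).mul (memF (hL.le hx)) (show y ∈ (J887.matFiltR m).F (n + 1) from ih hy)
      rwa [add_comm 1 (n + 1)] at this
    have h2 : y * x ∈ J887.FR m (n + 1 + 1) :=
      (J887.matFiltR m).mul (show y ∈ (J887.matFiltR m).F (n + 1) from ih hy) (memF (hL.le hx))
    exact Submodule.sub_mem _ h1 h2

theorem gs_bot (hL : LieSub L) (h : Idl L J) {n : ℕ} (hn : m ≤ n + 1) {x : Mat m}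
    (hx : x ∈ gs L J n) : x = 0 :=
  (J887.matFiltR m).bot x ((J887.matFiltR m).anti hn (gs_le hL h n hx))

end chain

theorem done_A2 : S_A2 := by
  intro m L J hL hJ S hS hLS D hD
  have key : ∀ k : ℕ, ∀ n : ℕ, m ≤ n + k + 2 → ∀ z ∈ gs L J (n + 1), uexp z ∈ D := by
    intro k
    induction k with
    | zero =>
      intro n hn z hz
      rw [gs_bot hL hJ (n := n + 1) (by omega) hz, uexp_zero]
      exact D.one_mem
    | succ k ih =>
      intro n hn
      have ih1 : ∀ z ∈ gs L J (n + 2), uexp z ∈ D := ih (n + 1) (by omega)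
      have hI := gs_idl hJ n
      have hI1 := gs_idl hJ (n + 1)
      have hI2 := gs_idl hJ (n + 2)
      -- cosets
      have hco : ∀ z ∈ gs L J (n + 1), ∀ j ∈ gs L J (n + 2), uexp (z + j) ∈ D → uexp z ∈ D := by
        intro z hz j hj h
        obtain ⟨j', hj', h1⟩ := uexp_coset hL hI2 (L.add_mem (hI1.le hz) (hI2.le hj)) (hI1.le hz)
          (show z - (z + j) ∈ gs L J (n + 2) by
            rw [sub_add_cancel_left]
            exact Submodule.neg_mem _ hj)
        rw [h1]
        exact D.mul_mem h (ih1 j' hj')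
      have hadd : ∀ z z', (z ∈ gs L J (n + 1) ∧ ∀ c : ℝ, uexp (c • z) ∈ D) →
          (z' ∈ gs L J (n + 1) ∧ ∀ c : ℝ, uexp (c • z') ∈ D) →
          (z + z' ∈ gs L J (n + 1) ∧ ∀ c : ℝ, uexp (c • (z + z')) ∈ D) := by
        rintro z z' ⟨hz, h1⟩ ⟨hz', h2⟩
        refine ⟨Submodule.add_mem _ hz hz', fun c => ?_⟩
        have hcz : c • z ∈ gs L J (n + 1) := Submodule.smul_mem _ _ hz
        have hcz' : c • z' ∈ gs L J (n + 1) := Submodule.smul_mem _ _ hz'
        obtain ⟨j, hj, h3⟩ := uexp_mul hL hI2 (hI1.le hcz) (hI1.le hcz')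
          (brk_mem (hI1.le hcz) hcz')
        rw [smul_add]
        apply hco _ (Submodule.add_mem _ hcz hcz') j hj
        rw [← h3]
        exact D.mul_mem (h1 c) (h2 c)
      have hsmul : ∀ (a : ℝ) z, (z ∈ gs L J (n + 1) ∧ ∀ c : ℝ, uexp (c • z) ∈ D) →
          (a • z ∈ gs L J (n + 1) ∧ ∀ c : ℝ, uexp (c • a • z) ∈ D) := by
        rintro a z ⟨hz, h1⟩
        refine ⟨Submodule.smul_mem _ _ hz, fun c => ?_⟩
        rw [smul_smul]
        exact h1 _
      have hzero : ((0 : Mat m) ∈ gs L J (n + 1) ∧ ∀ c : ℝ, uexp (c • (0 : Mat m)) ∈ D) := by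
        refine ⟨Submodule.zero_mem _, fun c => ?_⟩
        rw [smul_zero, uexp_zero]
        exact D.one_mem
      -- single brackets
      have hsingle : ∀ x, (x ∈ S ∨ x ∈ J) → ∀ y ∈ gs L J n,
          (x * y - y * x ∈ gs L J (n + 1) ∧ ∀ c : ℝ, uexp (c • (x * y - y * x)) ∈ D) := by
        intro x hx y hy
        have hxL : x ∈ L := hx.elim (hS x) (fun h => hJ.le h)
        have hbr : x * y - y * x ∈ gs L J (n + 1) := brk_mem hxL hy
        refine ⟨hbr, fun c => ?_⟩
        have hcy : c • y ∈ gs L J n := Submodule.smul_mem _ _ hy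
        have e : c • (x * y - y * x) = x * (c • y) - (c • y) * x := by
          rw [smul_sub, mul_smul_comm, smul_mul_assoc]
        obtain ⟨j, hj, h1⟩ := uexp_commutator hL hI2 hxL (hI.le hcy) (by
          intro z hz
          exact brk_mem hz (brk_mem hxL hcy))
        rw [← e] at h1
        apply hco _ (Submodule.smul_mem _ _ hbr) j hj
        rw [← h1]
        exact hD x hx _ (gs_le_J hJ n hcy)
      have hgen : ∀ x ∈ L, ∀ y ∈ gs L J n,
          (x * y - y * x ∈ gs L J (n + 1) ∧ ∀ c : ℝ, uexp (c • (x * y - y * x)) ∈ D) := by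
        intro x hx y hy
        have hx' : x ∈ Submodule.span ℝ (S ∪ (J : Set (Mat m))) := by
          rw [Submodule.span_union, Submodule.span_eq]
          exact hLS hx
        clear hx
        induction hx' using Submodule.span_induction with
        | mem x hx => exact hsingle x hx y hy
        | zero =>
          rw [zero_mul, mul_zero, sub_zero]
          exact hzero
        | add a b _ _ ha hb =>
          have e : (a + b) * y - y * (a + b) = (a * y - y * a) + (b * y - y * b) := by noncomm_ring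
          rw [e]
          exact hadd _ _ ha hb
        | smul c a _ ha =>
          have e : (c • a) * y - y * (c • a) = c • (a * y - y * a) := by
            rw [smul_sub, mul_smul_comm, smul_mul_assoc]
          rw [e]
          exact hsmul c _ ha
      have hall : ∀ z ∈ gs L J (n + 1),
          (z ∈ gs L J (n + 1) ∧ ∀ c : ℝ, uexp (c • z) ∈ D) := by
        intro z hz
        have hz' : z ∈ Submodule.span ℝ {z | ∃ x ∈ L, ∃ y ∈ gs L J n, z = x * y - y * x} := hz
        clear hz
        induction hz' using Submodule.span_induction with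
        | mem z hz =>
          obtain ⟨x, hx, y, hy, rfl⟩ := hz
          exact hgen x hx y hy
        | zero => exact hzero
        | add a b _ _ ha hb => exact hadd _ _ ha hb
        | smul c a _ ha => exact hsmul c _ ha
      intro z hz
      have h1 := (hall z hz).2 1
      rwa [one_smul] at h1
  intro z hz
  exact key m 0 (by omega) z hz

theorem done_N : S_N := by
  intro m H hH
  rw [Subgroup.isNilpotent_iff_lowerCentralSeries]
  have key : ∀ n : ℕ, ∀ q ∈ H.lowerCentralSeries n,
      q ∈ H ∧ ((q : (Mat m)ˣ) : Mat m) - 1 ∈ (J887.matFiltR m).F (n + 1) := by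
    intro n
    induction n with
    | zero =>
      intro q hq
      exact ⟨hq, hH q hq⟩
    | succ n ih =>
      have h0 : ∀ q ∈ H, ((q : (Mat m)ˣ) : Mat m) ∈ (J887.matFiltR m).F 0 := by
        intro q hq
        have h1 : (1 : Mat m) ∈ (J887.matFiltR m).F 0 := by
          intro i j hij
          exact Matrix.one_apply_ne (by
            intro h
            rw [h] at hij
            omega)
        have h2 := Submodule.add_mem _ ((J887.matFiltR m).anti (Nat.zero_le 1) (hH q hq)) h1
        rwa [sub_add_cancel] at h2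
      intro q hq
      rw [Subgroup.mem_lowerCentralSeries_succ_iff] at hq
      induction hq using Subgroup.closure_induction with
      | mem q hq =>
        obtain ⟨p, hp, q, hq, rfl⟩ := hq
        obtain ⟨hpH, hp1⟩ := ih p hp
        refine ⟨H.mul_mem (H.mul_mem (H.mul_mem hpH hq) (H.inv_mem hpH)) (H.inv_mem hq), ?_⟩
        have e : ((⁅p, q⁆ : (Mat m)ˣ) : Mat m) - 1 =
            (((p : Mat m) - 1) * ((q : Mat m) - 1) - ((q : Mat m) - 1) * ((p : Mat m) - 1)) *
              (((p⁻¹ : (Mat m)ˣ) : Mat m) * ((q⁻¹ : (Mat m)ˣ) : Mat m)) := by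
          have e1 : (((p : Mat m) - 1) * ((q : Mat m) - 1) - ((q : Mat m) - 1) * ((p : Mat m) - 1)) =
            (p : Mat m) * q - (q : Mat m) * p := by noncomm_ring
          have e2 : (q : Mat m) * p * (((p⁻¹ : (Mat m)ˣ) : Mat m) * ((q⁻¹ : (Mat m)ˣ) : Mat m)) = 1 := by
            rw [mul_assoc, ← mul_assoc (p : Mat m), Units.mul_inv, one_mul, Units.mul_inv]
          rw [e1, sub_mul, e2, commutatorElement_def, Units.val_mul, Units.val_mul, Units.val_mul,
            mul_assoc ((p : Mat m) * q)]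
        rw [e]
        have h1 : (((p : Mat m) - 1) * ((q : Mat m) - 1) - ((q : Mat m) - 1) * ((p : Mat m) - 1)) ∈
            (J887.matFiltR m).F (n + 1 + 1) := by
          refine Submodule.sub_mem _ ((J887.matFiltR m).mul hp1 (hH q hq)) ?_
          have := (J887.matFiltR m).mul (hH q hq) hp1
          rwa [add_comm 1 (n + 1)] at this
        have h2 := (J887.matFiltR m).mul (h0 _ (H.inv_mem hpH)) (h0 _ (H.inv_mem hq))
        have h3 := (J887.matFiltR m).mul h1 h2
        exact h3
      | one =>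
        refine ⟨H.one_mem, ?_⟩
        rw [Units.val_one, sub_self]
        exact Submodule.zero_mem _
      | mul x y _ _ hx hy =>
        refine ⟨H.mul_mem hx.1 hy.1, ?_⟩
        have e : ((x * y : (Mat m)ˣ) : Mat m) - 1 = ((x : Mat m) - 1) * (y : Mat m) +
            ((y : Mat m) - 1) := by
          rw [Units.val_mul]
          noncomm_ring
        rw [e]
        have h3 := (J887.matFiltR m).mul hx.2 (h0 y hy.1)
        exact Submodule.add_mem _ h3 hy.2
      | inv x _ hx =>
        refine ⟨H.inv_mem hx.1, ?_⟩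
        have e : ((x⁻¹ : (Mat m)ˣ) : Mat m) - 1 = -(((x : Mat m) - 1) * ((x⁻¹ : (Mat m)ˣ) : Mat m)) := by
          rw [sub_mul, Units.mul_inv, one_mul, neg_sub]
        rw [e]
        have h3 := (J887.matFiltR m).mul hx.2 (h0 _ (H.inv_mem hx.1))
        exact Submodule.neg_mem _ h3
  refine ⟨m, ?_⟩
  rw [eq_bot_iff]
  intro q hq
  rw [Subgroup.mem_bot]
  have h1 := (J887.matFiltR m).bot _ ((J887.matFiltR m).anti (Nat.le_succ m) (key m q hq).2)
  apply Units.ext
  rw [Units.val_one]
  exact sub_eq_zero.1 h1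

theorem done_L : S_L := by
  intro m σ δ G₀ hσ hδ hG hcomm
  let F : Set (Submodule ℝ (Mat m)) := {K | G₀ ≤ K ∧ ∀ t, (t = σ ∨ t = δ ∨ t ∈ G₀) →
    ∀ z ∈ K, t * z - z * t ∈ K}
  let J : Submodule ℝ (Mat m) := sInf F
  have hJ1 : G₀ ≤ J := le_sInf fun K hK => hK.1
  have hJ2 : ∀ t, (t = σ ∨ t = δ ∨ t ∈ G₀) → ∀ z ∈ J, t * z - z * t ∈ J := by
    intro t ht z hz
    rw [Submodule.mem_sInf] at hz ⊢
    intro K hK
    exact hK.2 t ht z (hz K hK)
  have hJF : ∀ K ∈ F, J ≤ K := fun K hK => sInf_le hK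
  have hJSu : J ≤ Su m := by
    apply hJF
    refine ⟨hG, fun t ht z hz => br_mem_Su ?_ hz⟩
    rcases ht with rfl | rfl | ht
    · exact hσ
    · exact hδ
    · exact hG ht
  have hJbr : ∀ z ∈ J, ∀ y ∈ J, z * y - y * z ∈ J := by
    let K : Submodule ℝ (Mat m) :=
      { carrier := {z | z ∈ J ∧ ∀ y ∈ J, z * y - y * z ∈ J}
        add_mem' := by
          rintro a b ⟨ha, ha'⟩ ⟨hb, hb'⟩
          refine ⟨J.add_mem ha hb, fun y hy => ?_⟩
          have e : (a + b) * y - y * (a + b) = (a * y - y * a) + (b * y - y * b) := by noncomm_ring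
          rw [e]
          exact J.add_mem (ha' y hy) (hb' y hy)
        zero_mem' := ⟨J.zero_mem, fun y _ => by
          rw [zero_mul, mul_zero, sub_zero]
          exact J.zero_mem⟩
        smul_mem' := by
          rintro c a ⟨ha, ha'⟩
          refine ⟨J.smul_mem _ ha, fun y hy => ?_⟩
          have e : (c • a) * y - y * (c • a) = c • (a * y - y * a) := by
            rw [smul_sub, mul_smul_comm, smul_mul_assoc]
          rw [e]
          exact J.smul_mem _ (ha' y hy) }
    have hK : K ∈ F := by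
      refine ⟨fun t ht => ⟨hJ1 ht, fun y hy => hJ2 t (Or.inr (Or.inr ht)) y hy⟩, ?_⟩
      rintro t ht z ⟨hz, hz'⟩
      refine ⟨hJ2 t ht z hz, fun y hy => ?_⟩
      have e : (t * z - z * t) * y - y * (t * z - z * t) =
          (t * (z * y - y * z) - (z * y - y * z) * t) - (z * (t * y - y * t) - (t * y - y * t) * z) := by
        noncomm_ring
      rw [e]
      exact J.sub_mem (hJ2 t ht _ (hz' y hy)) (hz' _ (hJ2 t ht y hy))
    intro z hz
    exact ((hJF K hK) hz).2
  have hdec : ∀ x ∈ J ⊔ Submodule.span ℝ {σ, δ}, ∃ a ∈ J, ∃ p q : ℝ, x = a + (p • σ + q • δ) := by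
    intro x hx
    obtain ⟨a, ha, b, hb, rfl⟩ := Submodule.mem_sup.1 hx
    obtain ⟨p, q, rfl⟩ := Submodule.mem_span_pair.1 hb
    exact ⟨a, ha, p, q, rfl⟩
  have hbrJ : ∀ x ∈ J ⊔ Submodule.span ℝ {σ, δ}, ∀ y ∈ J, x * y - y * x ∈ J := by
    intro x hx y hy
    obtain ⟨a, ha, p, q, rfl⟩ := hdec x hx
    have e : (a + (p • σ + q • δ)) * y - y * (a + (p • σ + q • δ)) =
        (a * y - y * a) + (p • (σ * y - y * σ) + q • (δ * y - y * δ)) := by
      simp only [smul_sub, add_mul, mul_add, smul_mul_assoc, mul_smul_comm]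
      abel
    rw [e]
    exact J.add_mem (hJbr a ha y hy) (J.add_mem (J.smul_mem _ (hJ2 σ (Or.inl rfl) y hy))
      (J.smul_mem _ (hJ2 δ (Or.inr (Or.inl rfl)) y hy)))
  refine ⟨J, hJ1, ⟨?_, ?_⟩, ⟨le_sup_left, hbrJ⟩, ?_⟩
  · rw [sup_le_iff]
    refine ⟨hJSu, ?_⟩
    rw [Submodule.span_le]
    rintro x hx
    rcases hx with rfl | hx
    · exact hσ
    · rw [Set.mem_singleton_iff] at hx
      rw [hx]
      exact hδ
  · intro x hx y hy
    obtain ⟨a, ha, p, q, rfl⟩ := hdec x hx
    obtain ⟨a', ha', p', q', rfl⟩ := hdec y hy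
    have e : (a + (p • σ + q • δ)) * (a' + (p' • σ + q' • δ)) -
        (a' + (p' • σ + q' • δ)) * (a + (p • σ + q • δ)) =
        ((a + (p • σ + q • δ)) * a' - a' * (a + (p • σ + q • δ))) -
          ((p' • σ + q' • δ) * a - a * (p' • σ + q' • δ)) := by
      have e1 : (p • σ + q • δ) * (p' • σ + q' • δ) = (p' • σ + q' • δ) * (p • σ + q • δ) := by
        simp only [add_mul, mul_add, smul_mul_assoc, mul_smul_comm, smul_add, smul_smul, hcomm,
          mul_comm p p', mul_comm q q', mul_comm p q', mul_comm q p']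
        abel
      have e2 : ∀ u v u' v' : Mat m, v * v' = v' * v → (u + v) * (u' + v') - (u' + v') * (u + v) =
          ((u + v) * u' - u' * (u + v)) - (v' * u - u * v') := by
        intro u v u' v' h
        have e3 : (u + v) * (u' + v') - (u' + v') * (u + v) =
          ((u + v) * u' - u' * (u + v)) - (v' * u - u * v') + (v * v' - v' * v) := by noncomm_ring
        rw [e3, h, sub_self, add_zero]
      exact e2 _ _ _ _ e1
    rw [e]
    apply Submodule.mem_sup_left
    refine J.sub_mem (hbrJ _ hx a' ha') (hbrJ _ ?_ a ha)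
    apply Submodule.mem_sup_right
    exact Submodule.mem_span_pair.2 ⟨p', q', rfl⟩
  · apply hJF
    have hidl : Idl (J ⊔ Submodule.span ℝ {σ, δ}) J := ⟨le_sup_left, hbrJ⟩
    refine ⟨le_sup_left, fun t ht z hz => ?_⟩
    have hzJ : z ∈ J := (sup_le hJ1 hidl.brk_le) hz
    apply Submodule.mem_sup_right
    refine brk_mem ?_ hzJ
    rcases ht with rfl | rfl | ht
    · exact Submodule.mem_sup_right (Submodule.subset_span (Or.inl rfl))
    · exact Submodule.mem_sup_right (Submodule.subset_span (Or.inr rfl))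
    · exact Submodule.mem_sup_left (hJ1 ht)

theorem done_G : S_G := by
  intro m σ δ J hcomm hL hI
  set L := J ⊔ Submodule.span ℝ {σ, δ} with hLdef
  have hτ : ∀ a b : ℝ, a • σ + b • δ ∈ L := by
    intro a b
    exact Submodule.mem_sup_right (Submodule.mem_span_pair.2 ⟨a, b, rfl⟩)
  have hadd : ∀ a b a' b' : ℝ, uexp (a • σ + b • δ) * uexp (a' • σ + b' • δ) =
      uexp ((a + a') • σ + (b + b') • δ) := by
    intro a b a' b'
    rw [← uexp_add (hL.le (hτ a b)) (hL.le (hτ a' b'))]
    · congr 1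
      rw [add_smul, add_smul]
      abel
    · simp only [add_mul, mul_add, smul_mul_assoc, mul_smul_comm, smul_add, smul_smul, hcomm,
        mul_comm a a', mul_comm b b', mul_comm a b', mul_comm b a']
      abel
  have hconj : ∀ w ∈ L, ∀ f ∈ J, ∃ f' ∈ J, uexp w * uexp f * uexp (-w) = uexp f' := by
    intro w hw f hf
    have h1 := hI.br w hw f hf
    obtain ⟨j, hj, h⟩ := uexp_conj hL hI hw (hI.le hf) (hI.br w hw _ h1)
    exact ⟨_, J.add_mem (J.add_mem hf h1) hj, h⟩
  have hmul : ∀ f ∈ J, ∀ f' ∈ J, ∃ f'' ∈ J, uexp f * uexp f' = uexp f'' := by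
    intro f hf f' hf'
    obtain ⟨j, hj, h⟩ := uexp_mul hL hI (hI.le hf) (hI.le hf') (hI.br f (hI.le hf) f' hf')
    exact ⟨_, J.add_mem (J.add_mem hf hf') hj, h⟩
  refine ⟨{ carrier := {T | ∃ f ∈ J, ∃ a b : ℤ, T = uexp f * uexp ((a : ℝ) • σ + (b : ℝ) • δ)}
            one_mem' := ⟨0, J.zero_mem, 0, 0, by simp [uexp_zero]⟩
            mul_mem' := ?_
            inv_mem' := ?_ }, fun T => Iff.rfl⟩
  · rintro _ _ ⟨f, hf, a, b, rfl⟩ ⟨f', hf', a', b', rfl⟩
    obtain ⟨f1, hf1, h1⟩ := hconj _ (hτ a b) f' hf'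
    obtain ⟨f2, hf2, h2⟩ := hmul f hf f1 hf1
    refine ⟨f2, hf2, a + a', b + b', ?_⟩
    rw [← h2, ← h1]
    push_cast
    rw [← hadd, ← uexp_inv]
    group
  · rintro _ ⟨f, hf, a, b, rfl⟩
    obtain ⟨f1, hf1, h1⟩ := hconj _ (L.neg_mem (hτ a b)) (-f) (J.neg_mem hf)
    refine ⟨f1, hf1, -a, -b, ?_⟩
    rw [← h1, neg_neg, ← uexp_inv, ← uexp_inv f]
    have e : ((-a : ℤ) : ℝ) • σ + ((-b : ℤ) : ℝ) • δ = -((a : ℝ) • σ + (b : ℝ) • δ) := by
      push_cast
      rw [neg_smul, neg_smul]
      abel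
    rw [e, ← uexp_inv]
    group

end Pool.Agent.Y179.NS
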