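import Pool.Agent.Y179.NS.A

/-!
# Project NS: A1 (Mal'cev coordinates modulo a rational subgroup)
-/

set_option autoImplicit false

namespace Pool.Agent.Y179.NS

open Pool.Agent.Y329.NS
open Pool.Agent.TH91.RF Pool.Agent.TH91.NB

section

variable {m : ℕ} {L J : Submodule ℝ (Mat m)}

theorem br_jacobi (l z y : Mat m) : (l * z - z * l) * y - y * (l * z - z * l) =
    (l * (z * y - y * z) - (z * y - y * z) * l) - (z * (l * y - y * l) - (l * y - y * l) * z) := by
  noncomm_ring

/-- `[[L, J], g n] ⊆ g (n+2)` -/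
theorem brk_gs (hJ : Idl L J) (n : ℕ) {x y : Mat m} (hx : x ∈ brk L J) (hy : y ∈ gs L J n) :
    x * y - y * x ∈ gs L J (n + 2) := by
  have hx' : x ∈ Submodule.span ℝ {z | ∃ x ∈ L, ∃ y ∈ J, z = x * y - y * x} := hx
  clear hx
  induction hx' using Submodule.span_induction with
  | mem x hx =>
    obtain ⟨l, hl, z, hz, rfl⟩ := hx
    rw [br_jacobi]
    have h1 : z * y - y * z ∈ gs L J (n + 1) := brk_mem (hJ.le hz) hy
    have h2 : l * y - y * l ∈ gs L J (n + 1) := brk_mem hl hy
    exact Submodule.sub_mem _ (brk_mem (J := gs L J (n + 1)) hl h1)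
      (brk_mem (J := gs L J (n + 1)) (hJ.le hz) h2)
  | zero =>
    rw [zero_mul, mul_zero, sub_zero]
    exact Submodule.zero_mem _
  | add a b _ _ ha hb =>
    have e : (a + b) * y - y * (a + b) = (a * y - y * a) + (b * y - y * b) := by noncomm_ring
    rw [e]
    exact Submodule.add_mem _ ha hb
  | smul c a _ ha =>
    have e : (c • a) * y - y * (c • a) = c • (a * y - y * a) := by
      rw [smul_sub, mul_smul_comm, smul_mul_assoc]
    rw [e]
    exact Submodule.smul_mem _ _ ha

/-- rationality of the lower central series -/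
theorem gs_rat (hL : LieSub L) (hJ : Idl L J) {Λ : Subgroup (Mat m)ˣ} {S : Set (Mat m)}
    (hS : ∀ x ∈ S, x ∈ L) (hSΛ : ∀ x ∈ S, uexp x ∈ Λ) (hLS : L ≤ Submodule.span ℝ S ⊔ J)
    (hJS : J ≤ Submodule.span ℝ {z | z ∈ J ∧ uexp z ∈ Λ} ⊔ brk L J) (n : ℕ) :
    gs L J n ≤ Submodule.span ℝ {z | z ∈ gs L J n ∧ uexp z ∈ Λ} ⊔ gs L J (n + 1) := by
  induction n with
  | zero => exact hJS
  | succ n ih =>
    set R := Submodule.span ℝ {z | z ∈ gs L J (n + 1) ∧ uexp z ∈ Λ} ⊔ gs L J (n + 1 + 1) with hR
    have hI := gs_idl hJ n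
    have hI1 := gs_idl hJ (n + 1)
    have hI2 := gs_idl hJ (n + 2)
    -- generators
    have h1 : ∀ x, (x ∈ L ∧ uexp x ∈ Λ) → ∀ y ∈ gs L J n, x * y - y * x ∈ R := by
      rintro x ⟨hxL, hxΛ⟩ y hy
      have hy' := ih hy
      obtain ⟨u, hu, v, hv, rfl⟩ := Submodule.mem_sup.1 hy'
      have e : x * (u + v) - (u + v) * x = (x * u - u * x) + (x * v - v * x) := by noncomm_ring
      rw [e]
      refine R.add_mem ?_ (Submodule.mem_sup_right (brk_mem (J := gs L J (n + 1)) hxL hv))
      clear hy' hy e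
      induction hu using Submodule.span_induction with
      | mem u hu =>
        obtain ⟨huI, huΛ⟩ := hu
        have hbr : x * u - u * x ∈ gs L J (n + 1) := brk_mem hxL huI
        obtain ⟨j, hj, h2⟩ := uexp_commutator hL hI2 hxL (hI.le huI) (by
          intro z hz
          exact brk_mem (J := gs L J (n + 1)) hz hbr)
        have h3 : (x * u - u * x) + j ∈ gs L J (n + 1) :=
          Submodule.add_mem _ hbr (gs_succ_le hJ (n + 1) hj)
        have h4 : uexp ((x * u - u * x) + j) ∈ Λ := by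
          rw [← h2, ← uexp_inv, ← uexp_inv]
          exact Λ.mul_mem (Λ.mul_mem (Λ.mul_mem hxΛ huΛ) (Λ.inv_mem hxΛ)) (Λ.inv_mem huΛ)
        have h5 : x * u - u * x = ((x * u - u * x) + j) - j := by rw [add_sub_cancel_right]
        rw [h5]
        exact R.sub_mem (Submodule.mem_sup_left (Submodule.subset_span ⟨h3, h4⟩))
          (Submodule.mem_sup_right hj)
      | zero =>
        rw [zero_mul, mul_zero, sub_zero]
        exact Submodule.zero_mem _
      | add a b _ _ ha hb =>
        have e : x * (a + b) - (a + b) * x = (x * a - a * x) + (x * b - b * x) := by noncomm_ring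
        rw [e]
        exact Submodule.add_mem _ ha hb
      | smul c a _ ha =>
        have e : x * (c • a) - (c • a) * x = c • (x * a - a * x) := by
          rw [smul_sub, mul_smul_comm, smul_mul_assoc]
        rw [e]
        exact Submodule.smul_mem _ _ ha
    have h2 : ∀ x ∈ L, x ∈ Submodule.span ℝ {x | x ∈ L ∧ uexp x ∈ Λ} ⊔ brk L J := by
      intro x hx
      obtain ⟨a, ha, b, hb, rfl⟩ := Submodule.mem_sup.1 (hLS hx)
      refine Submodule.add_mem _ (Submodule.mem_sup_left ?_) ?_
      · refine Submodule.span_mono ?_ ha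
        exact fun x hx => ⟨hS x hx, hSΛ x hx⟩
      · obtain ⟨c, hc, d, hd, rfl⟩ := Submodule.mem_sup.1 (hJS hb)
        refine Submodule.add_mem _ (Submodule.mem_sup_left ?_) (Submodule.mem_sup_right hd)
        refine Submodule.span_mono ?_ hc
        exact fun x hx => ⟨hJ.le hx.1, hx.2⟩
    change Submodule.span ℝ {z | ∃ x ∈ L, ∃ y ∈ gs L J n, z = x * y - y * x} ≤ _
    rw [Submodule.span_le]
    rintro _ ⟨x, hx, y, hy, rfl⟩
    obtain ⟨u, hu, v, hv, rfl⟩ := Submodule.mem_sup.1 (h2 x hx)
    have e : (u + v) * y - y * (u + v) = (u * y - y * u) + (v * y - y * v) := by noncomm_ring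
    rw [e]
    refine R.add_mem ?_ (Submodule.mem_sup_right (brk_gs hJ n hv hy))
    clear hx e
    induction hu using Submodule.span_induction with
    | mem u hu => exact h1 u hu y hy
    | zero =>
      rw [zero_mul, mul_zero, sub_zero]
      exact Submodule.zero_mem _
    | add a b _ _ ha hb =>
      have e : (a + b) * y - y * (a + b) = (a * y - y * a) + (b * y - y * b) := by noncomm_ring
      rw [e]
      exact Submodule.add_mem _ ha hb
    | smul c a _ ha =>
      have e : (c • a) * y - y * (c • a) = c • (a * y - y * a) := by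
        rw [smul_sub, mul_smul_comm, smul_mul_assoc]
      rw [e]
      exact Submodule.smul_mem _ _ ha

/-- one step of the coordinates -/
theorem coord_step (hL : LieSub L) (hJ : Idl L J) {Λ : Subgroup (Mat m)ˣ} (n : ℕ) (N : ℕ) :
    ∀ (b : Fin N → Mat m), (∀ i, b i ∈ gs L J n ∧ uexp (b i) ∈ Λ) → ∀ (s : Fin N → ℝ),
      ∀ z ∈ gs L J (n + 1), ∃ w ∈ gs L J (n + 1), ∃ l ∈ Λ,
        uexp (∑ i, s i • b i + z) =
          (List.ofFn fun i => uexp (Int.fract (s i) • b i)).prod * uexp w * l := by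
  have hI := gs_idl hJ n
  have hI1 := gs_idl hJ (n + 1)
  induction N with
  | zero =>
    intro b _ s z hz
    refine ⟨z, hz, 1, Λ.one_mem, ?_⟩
    simp
  | succ N ih =>
    intro b hb s z hz
    have hb0 := hb 0
    set x := ∑ i : Fin (N + 1), s i • b i + z with hx
    have hxn : x ∈ gs L J n :=
      Submodule.add_mem _ (Submodule.sum_mem _ fun i _ => Submodule.smul_mem _ _ (hb i).1)
        (gs_succ_le hJ n hz)
    have hu : -(Int.fract (s 0) • b 0) ∈ gs L J n :=
      Submodule.neg_mem _ (Submodule.smul_mem _ _ hb0.1)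
    have hv : -(((⌊s 0⌋ : ℤ) : ℝ) • b 0) ∈ gs L J n :=
      Submodule.neg_mem _ (Submodule.smul_mem _ _ hb0.1)
    obtain ⟨j, hj, h1⟩ := uexp_mul hL hI1 (hI.le hu) (hI.le hxn) (brk_mem (hI.le hu) hxn)
    have hux : -(Int.fract (s 0) • b 0) + x + j ∈ gs L J n :=
      Submodule.add_mem _ (Submodule.add_mem _ hu hxn) (gs_succ_le hJ n hj)
    obtain ⟨j', hj', h2⟩ := uexp_mul hL hI1 (hI.le hux) (hI.le hv) (brk_mem (hI.le hux) hv)
    obtain ⟨w, hw, l, hl, h3⟩ := ih (fun i => b i.succ) (fun i => hb i.succ) (fun i => s i.succ)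
      (z + j + j') (Submodule.add_mem _ (Submodule.add_mem _ hz hj) hj')
    refine ⟨w, hw, l * uexp (((⌊s 0⌋ : ℤ) : ℝ) • b 0), Λ.mul_mem hl ?_, ?_⟩
    · rw [← uexp_zpow (hL.le (hI.le hb0.1))]
      exact Λ.zpow_mem hb0.2 _
    · have e : -(Int.fract (s 0) • b 0) + x + j + -(((⌊s 0⌋ : ℤ) : ℝ) • b 0) + j' =
          ∑ i : Fin N, s i.succ • b i.succ + (z + j + j') := by
        have e1 : s 0 • b 0 = ((⌊s 0⌋ : ℤ) : ℝ) • b 0 + Int.fract (s 0) • b 0 := by
          rw [← add_smul, Int.floor_add_fract]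
        rw [hx, Fin.sum_univ_succ, e1]
        abel
      rw [e, h3, ← h1] at h2
      rw [List.ofFn_succ, List.prod_cons]
      rw [← uexp_inv, ← uexp_inv] at h2
      have h4 : uexp x = uexp (Int.fract (s 0) • b 0) * ((uexp (Int.fract (s 0) • b 0))⁻¹ * uexp x *
          (uexp (((⌊s 0⌋ : ℤ) : ℝ) • b 0))⁻¹) * uexp (((⌊s 0⌋ : ℤ) : ℝ) • b 0) := by group
      rw [h4, h2]
      simp only [mul_assoc]

end

theorem done_A1 : S_A1 := by
  intro m L J hL hJ Λ S hS hSΛ hLS hJS
  have key : ∀ k : ℕ, ∀ n : ℕ, m ≤ n + k + 1 → ∃ (N : ℕ) (b : Fin N → Mat m),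
      (∀ i, b i ∈ gs L J n) ∧ ∀ z ∈ gs L J n, ∃ t : Fin N → ℝ,
        (∀ i, t i ∈ Set.Icc (0 : ℝ) 1) ∧
        ∃ l ∈ Λ, uexp z = (List.ofFn fun i => uexp (t i • b i)).prod * l := by
    intro k
    induction k with
    | zero =>
      intro n hn
      refine ⟨0, fun i => i.elim0, fun i => i.elim0, ?_⟩
      intro z hz
      refine ⟨fun i => i.elim0, fun i => i.elim0, 1, Λ.one_mem, ?_⟩
      rw [gs_bot hL hJ (by omega) hz, uexp_zero]
      simp
    | succ k ih =>
      intro n hn
      obtain ⟨N', b', hb', h'⟩ := ih (n + 1) (by omega)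
      have hfg : (Submodule.span ℝ {z | z ∈ gs L J n ∧ uexp z ∈ Λ}).FG :=
        IsNoetherian.noetherian _
      obtain ⟨s', hs', hspan⟩ := (Submodule.fg_span_iff_fg_span_finset_subset _).1 hfg
      let e := s'.equivFin
      let b : Fin s'.card → Mat m := fun i => ((e.symm i : s') : Mat m)
      have hb : ∀ i, b i ∈ gs L J n ∧ uexp (b i) ∈ Λ := fun i => hs' (e.symm i).2
      have hrange : Set.range b = (s' : Set (Mat m)) := by
        ext x
        constructor
        · rintro ⟨i, rfl⟩
          exact (e.symm i).2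
        · intro hx
          exact ⟨e ⟨x, hx⟩, by simp [b]⟩
      refine ⟨s'.card + N', Fin.append b b', ?_, ?_⟩
      · intro i
        refine Fin.addCases (fun i => ?_) (fun i => ?_) i
        · rw [Fin.append_left]
          exact (hb i).1
        · rw [Fin.append_right]
          exact gs_succ_le hJ n (hb' i)
      · intro z hz
        obtain ⟨u, hu, v, hv, rfl⟩ := Submodule.mem_sup.1 (gs_rat hL hJ hS hSΛ hLS hJS n hz)
        rw [hspan, ← hrange, Submodule.mem_span_range_iff_exists_fun] at hu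
        obtain ⟨s, rfl⟩ := hu
        obtain ⟨w, hw, l, hl, h1⟩ := coord_step hL hJ (Λ := Λ) n _ b hb s v hv
        obtain ⟨t', ht', l', hl', h2⟩ := h' w hw
        refine ⟨Fin.append (fun i => Int.fract (s i)) t', ?_, l' * l, Λ.mul_mem hl' hl, ?_⟩
        · intro i
          refine Fin.addCases (fun i => ?_) (fun i => ?_) i
          · rw [Fin.append_left]
            exact ⟨Int.fract_nonneg _, (Int.fract_lt_one _).le⟩
          · rw [Fin.append_right]
            exact ht' i
        · have e1 : (fun i => uexp (Fin.append (fun i => Int.fract (s i)) t' i •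
              Fin.append b b' i)) = Fin.append (fun i => uexp (Int.fract (s i) • b i))
                (fun i => uexp (t' i • b' i)) := by
            funext i
            refine Fin.addCases (fun i => ?_) (fun i => ?_) i
            · simp only [Fin.append_left]
            · simp only [Fin.append_right]
          rw [e1, List.ofFn_fin_append, List.prod_append, h1, h2]
          simp only [mul_assoc]
  obtain ⟨N, b, hb, h⟩ := key m 0 (by omega)
  exact ⟨N, b, hb, h⟩

end Pool.Agent.Y179.NS
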