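import Pool.Agent.Y329.NS.Stm

/-!
# Project NS: P1, P2, P7 (closed invariant sets, compact quotients)
-/

set_option autoImplicit false

namespace Pool.Agent.Y179.NS

open Topology

section

variable {G : Type} [Group G] [TopologicalSpace G] [IsTopologicalGroup G] (Λ : Subgroup G)

theorem closed_image {K : Set G} (hK : IsClosed K) (h : ∀ x ∈ K, ∀ l ∈ Λ, x * l ∈ K) :
    IsClosed ((QuotientGroup.mk : G → G ⧸ Λ) '' K) := by
  have h1 : IsQuotientMap (QuotientGroup.mk : G → G ⧸ Λ) := isQuotientMap_quotient_mk'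
  rw [← h1.isClosed_preimage]
  convert hK using 1
  ext x
  constructor
  · rintro ⟨y, hy, hyx⟩
    rw [QuotientGroup.eq] at hyx
    have h2 := h y hy _ hyx
    rwa [mul_inv_cancel_left] at h2
  · intro hx
    exact ⟨x, hx, rfl⟩

theorem mem_of_mem_image {K : Set G} (h : ∀ x ∈ K, ∀ l ∈ Λ, x * l ∈ K) {x : G}
    (hx : (x : G ⧸ Λ) ∈ (QuotientGroup.mk : G → G ⧸ Λ) '' K) : x ∈ K := by
  obtain ⟨y, hy, hyx⟩ := hx
  rw [QuotientGroup.eq] at hyx
  have h2 := h y hy _ hyx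
  rwa [mul_inv_cancel_left] at h2

end

theorem P1 (G : Type) [Group G] [TopologicalSpace G] [IsTopologicalGroup G]
    (Λ : Subgroup G) [CompactSpace (G ⧸ Λ)] (K D : Set G) (hK : IsClosed K) (hD : IsClosed D)
    (hKl : ∀ x ∈ K, ∀ l ∈ Λ, x * l ∈ K) (hDl : ∀ x ∈ D, ∀ l ∈ Λ, l * x ∈ D) :
    IsClosed {z : G | ∃ x ∈ K, ∃ y ∈ D, z = x * y} := by
  let q : G × G → (G ⧸ Λ) × G := Prod.map QuotientGroup.mk id
  have hq : IsOpenMap q := QuotientGroup.isOpenMap_coe.prodMap IsOpenMap.id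
  let W : Set (G × G) := {p | p.1 ∈ K ∧ p.1⁻¹ * p.2 ∈ D}
  have hW : IsClosed W :=
    (hK.preimage continuous_fst).inter (hD.preimage (continuous_fst.inv.mul continuous_snd))
  have hsat : ∀ p p' : G × G, p ∈ W → q p = q p' → p' ∈ W := by
    rintro ⟨x, z⟩ ⟨x', z'⟩ ⟨h1, h2⟩ h3
    have h4 : (x : G ⧸ Λ) = x' := congrArg Prod.fst h3
    have h5 : z = z' := congrArg Prod.snd h3
    subst h5
    rw [QuotientGroup.eq] at h4
    refine ⟨?_, ?_⟩
    · have := hKl x h1 _ h4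
      rwa [mul_inv_cancel_left] at this
    · have := hDl _ h2 _ (Λ.inv_mem h4)
      rwa [mul_inv_rev, inv_inv, mul_assoc, mul_inv_cancel_left] at this
  have hqW : IsClosed (q '' W) := by
    rw [← isOpen_compl_iff]
    have h1 : (q '' W)ᶜ = q '' Wᶜ := by
      ext y
      constructor
      · intro hy
        obtain ⟨⟨c, z⟩⟩ : Nonempty ((G ⧸ Λ) × G) := ⟨y⟩
        obtain ⟨x, hx⟩ := QuotientGroup.mk_surjective y.1
        refine ⟨(x, y.2), fun h => hy ⟨_, h, ?_⟩, ?_⟩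
        · exact Prod.ext hx rfl
        · exact Prod.ext hx rfl
      · rintro ⟨p, hp, rfl⟩ ⟨p', hp', h⟩
        exact hp (hsat _ _ hp' h)
    rw [h1]
    exact hq _ hW.isOpen_compl
  have h2 : {z : G | ∃ x ∈ K, ∃ y ∈ D, z = x * y} = Prod.snd '' (q '' W) := by
    ext z
    constructor
    · rintro ⟨x, hx, y, hy, rfl⟩
      refine ⟨q (x, x * y), ⟨_, ⟨hx, ?_⟩, rfl⟩, rfl⟩
      simpa using hy
    · rintro ⟨_, ⟨⟨x, z'⟩, ⟨h3, h4⟩, rfl⟩, rfl⟩
      exact ⟨x, h3, _, h4, by simp [q]⟩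
  rw [h2]
  exact isClosedMap_snd_of_compactSpace _ hqW

theorem P2 (G : Type) [Group G] [TopologicalSpace G] [IsTopologicalGroup G]
    (Λ : Subgroup G) [CompactSpace (G ⧸ Λ)] (φ : G → Circle) (hφ : Continuous φ)
    (hl : ∀ x, ∀ l ∈ Λ, φ (x * l) = φ x) (ε : ℝ) (hε : 0 < ε) :
    ∃ V ∈ 𝓝 (1 : G), ∀ v ∈ V, ∀ x, dist (φ (v * x)) (φ x) < ε := by
  let q : G × G → G × (G ⧸ Λ) := Prod.map id QuotientGroup.mk
  have hq : IsOpenMap q := IsOpenMap.id.prodMap QuotientGroup.isOpenMap_coe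
  let W : Set (G × G) := {p | dist (φ (p.1 * p.2)) (φ p.2) < ε}
  have hW : IsOpen W := by
    apply isOpen_lt _ continuous_const
    exact (hφ.comp (continuous_fst.mul continuous_snd)).dist (hφ.comp continuous_snd)
  obtain ⟨u, v, hu, -, hu1, hv, huv⟩ := generalized_tube_lemma (isCompact_singleton (x := (1 : G)))
    (isCompact_univ (X := G ⧸ Λ)) (hq _ hW) (by
      rintro ⟨a, c⟩ ⟨ha, -⟩
      obtain ⟨x, rfl⟩ := QuotientGroup.mk_surjective c
      have ha' : a = 1 := ha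
      subst ha'
      refine ⟨(1, x), ?_, rfl⟩
      change dist (φ (1 * x)) (φ x) < ε
      rw [one_mul, dist_self]
      exact hε)
  refine ⟨u, hu.mem_nhds (hu1 rfl), ?_⟩
  intro a ha x
  obtain ⟨⟨a', x'⟩, h1, h2⟩ := huv (Set.mk_mem_prod ha (hv (Set.mem_univ (x : G ⧸ Λ))))
  have h3 : a' = a := congrArg Prod.fst h2
  have h4 : (x' : G ⧸ Λ) = x := congrArg Prod.snd h2
  subst h3
  rw [QuotientGroup.eq] at h4
  have h5 : dist (φ (a' * x')) (φ x') < ε := h1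
  have h6 : x' * (x'⁻¹ * x) = x := mul_inv_cancel_left _ _
  rw [← h6, hl _ _ h4, ← mul_assoc, hl _ _ h4]
  exact h5

open Pool.Agent.Y329.NS (Inv)

theorem P7 (G : Type) [Group G] [TopologicalSpace G] [IsTopologicalGroup G]
    (A Λ : Subgroup G) [CompactSpace (G ⧸ Λ)] (K₀ : Set G) (hK : IsClosed K₀) (hne : K₀.Nonempty)
    (hinv : Inv A Λ K₀) :
    ∃ K ⊆ K₀, IsClosed K ∧ K.Nonempty ∧ Inv A Λ K ∧
      ∀ K' ⊆ K, IsClosed K' → K'.Nonempty → Inv A Λ K' → K' = K := by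
  obtain ⟨K, hKK, hK1⟩ := zorn_superset_nonempty
    {K : Set G | IsClosed K ∧ K.Nonempty ∧ Inv A Λ K} (by
      intro c hc hch hcn
      refine ⟨⋂₀ c, ⟨isClosed_sInter fun s hs => (hc hs).1, ?_, ?_, ?_⟩,
        fun s hs => Set.sInter_subset_of_mem hs⟩
      · have hcn' : Nonempty c := hcn.to_subtype
        have h1 : (⋂ i : c, (QuotientGroup.mk : G → G ⧸ Λ) '' i.1).Nonempty := by
          apply IsCompact.nonempty_iInter_of_directed_nonempty_isCompact_isClosed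
          · intro i j
            rcases hch.total i.2 j.2 with h | h
            · exact ⟨i, subset_rfl, Set.image_mono h⟩
            · exact ⟨j, Set.image_mono h, subset_rfl⟩
          · exact fun i => (hc i.2).2.1.image _
          · exact fun i => (closed_image Λ (hc i.2).1 (hc i.2).2.2.2).isCompact
          · exact fun i => closed_image Λ (hc i.2).1 (hc i.2).2.2.2
        obtain ⟨y, hy⟩ := h1
        obtain ⟨x, rfl⟩ := QuotientGroup.mk_surjective y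
        refine ⟨x, fun s hs => ?_⟩
        exact mem_of_mem_image Λ (hc hs).2.2.2 (Set.mem_iInter.1 hy ⟨s, hs⟩)
      · intro x hx a ha s hs
        exact (hc hs).2.2.1 x (hx s hs) a ha
      · intro x hx a ha s hs
        exact (hc hs).2.2.2 x (hx s hs) a ha) K₀ ⟨hK, hne, hinv⟩
  refine ⟨K, hKK, hK1.1.1, hK1.1.2.1, hK1.1.2.2, ?_⟩
  intro K' hK' h1 h2 h3
  exact Set.Subset.antisymm hK' (hK1.2 ⟨h1, h2, h3⟩ hK')

theorem done_P1 : Pool.Agent.Y329.NS.S_P1 := by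
  intro G _ _ _ Λ _ K D hK hD hKl hDl
  exact P1 G Λ K D hK hD hKl hDl

theorem done_P2 : Pool.Agent.Y329.NS.S_P2 := by
  intro G _ _ _ Λ _ φ hφ hl ε hε
  exact P2 G Λ φ hφ hl ε hε

theorem done_P7 : Pool.Agent.Y329.NS.S_P7 := by
  intro G _ _ _ A Λ _ K₀ hK hne hinv
  exact P7 G A Λ K₀ hK hne hinv

end Pool.Agent.Y179.NS
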