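import Pool.Agent.Y179.NS.P127
import Pool.Agent.TH264.Bridge.PW

/-!
# Project NS: X, P3, P4, P5, F
-/

set_option autoImplicit false

namespace Pool.Agent.Y179.NS

open Topology commutatorElement

theorem tX (G : Type) [Group G] [TopologicalSpace G] [IsTopologicalGroup G]
    (Γ U : Subgroup G) [CompactSpace (G ⧸ Γ)] [U.Normal] (hU : IsOpen (U : Set G)) (g : G)
    (hd : ∀ m : ℕ, 0 < m → ∀ x : G ⧸ Γ, Dense (Set.range (fun n : ℤ => (g ^ m) ^ n • x)))
    (x : G) : ∃ u ∈ U, ∃ γ ∈ Γ, x = u * γ := by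
  classical
  have hP : IsOpen ((U ⊔ Γ : Subgroup G) : Set G) := Subgroup.isOpen_mono le_sup_left hU
  have hdisc : DiscreteTopology (G ⧸ (U ⊔ Γ)) := QuotientGroup.discreteTopology hP
  let f : G ⧸ Γ → G ⧸ (U ⊔ Γ) := Subgroup.quotientMapOfLE le_sup_right
  have hfc : Continuous f := by
    apply continuous_quot_lift
    exact continuous_quot_mk
  have hfs : Function.Surjective f := by
    intro y
    obtain ⟨z, rfl⟩ := QuotientGroup.mk_surjective y
    exact ⟨(z : G ⧸ Γ), rfl⟩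
  have hcomp : CompactSpace (G ⧸ (U ⊔ Γ)) := hfs.compactSpace hfc
  have hfin : Finite (G ⧸ (U ⊔ Γ)) := finite_of_compact_of_discrete
  let σ : Equiv.Perm (G ⧸ (U ⊔ Γ)) := MulAction.toPermHom G (G ⧸ (U ⊔ Γ)) g
  have hr : 0 < orderOf σ := orderOf_pos σ
  have h1 : ∀ y : G ⧸ (U ⊔ Γ), g ^ orderOf σ • y = y := by
    intro y
    have h2 : MulAction.toPermHom G (G ⧸ (U ⊔ Γ)) (g ^ orderOf σ) = 1 := by
      rw [map_pow]
      exact pow_orderOf_eq_one σ
    have h3 := congrArg (fun τ : Equiv.Perm (G ⧸ (U ⊔ Γ)) => τ y) h2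
    simpa using h3
  have h2 : ∀ (n : ℤ) (y : G ⧸ (U ⊔ Γ)), (g ^ orderOf σ) ^ n • y = y := by
    intro n y
    have h3 : g ^ orderOf σ ∈ MulAction.stabilizer G y := h1 y
    exact (MulAction.stabilizer G y).zpow_mem h3 n
  have h3 := (hd _ hr ((1 : G) : G ⧸ Γ))
  have h4 : Dense (f '' Set.range (fun n : ℤ => (g ^ orderOf σ) ^ n • ((1 : G) : G ⧸ Γ))) :=
    hfs.denseRange.dense_image hfc h3
  have h5 : (x : G ⧸ (U ⊔ Γ)) ∈ f '' Set.range
      (fun n : ℤ => (g ^ orderOf σ) ^ n • ((1 : G) : G ⧸ Γ)) := by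
    have h6 := h4.closure_eq
    rw [(isClosed_discrete _).closure_eq] at h6
    rw [h6]
    trivial
  obtain ⟨_, ⟨n, rfl⟩, h6⟩ := h5
  have h7 : f ((g ^ orderOf σ) ^ n • ((1 : G) : G ⧸ Γ)) =
      (g ^ orderOf σ) ^ n • ((1 : G) : G ⧸ (U ⊔ Γ)) := rfl
  rw [h7, h2, QuotientGroup.eq, inv_one, one_mul] at h6
  have h8 : x ∈ ((U ⊔ Γ : Subgroup G) : Set G) := h6
  rw [Subgroup.normal_mul] at h8
  obtain ⟨u, hu, γ, hγ, h⟩ := Set.mem_mul.1 h8
  exact ⟨u, hu, γ, hγ, h.symm⟩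

theorem tP4 (z : Circle) (hz : ∀ n : ℕ, dist (z ^ n) 1 < 1) : z = 1 := by
  by_contra hne
  have h0 : ∀ w : Circle, dist w 1 < 1 → (3 / 2 : ℝ) * dist w 1 ≤ dist (w ^ 2) 1 := by
    intro w hw
    have e1 : dist w 1 = ‖(w : ℂ) - 1‖ := by
      change dist (w : ℂ) ((1 : Circle) : ℂ) = _
      rw [dist_eq_norm, Circle.coe_one]
    have e2 : dist (w ^ 2) 1 = ‖(w : ℂ) - 1‖ * ‖(w : ℂ) + 1‖ := by
      change dist ((w ^ 2 : Circle) : ℂ) ((1 : Circle) : ℂ) = _
      rw [dist_eq_norm, Circle.coe_one, Circle.coe_pow, ← norm_mul]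
      congr 1
      ring
    rw [e1] at hw ⊢
    rw [e2]
    have e3 := parallelogram_law_with_norm ℝ (w : ℂ) 1
    rw [Circle.norm_coe, norm_one] at e3
    have e4 : (3 / 2 : ℝ) ≤ ‖(w : ℂ) + 1‖ := by
      have := norm_nonneg ((w : ℂ) - 1)
      have := norm_nonneg ((w : ℂ) + 1)
      nlinarith
    have := norm_nonneg ((w : ℂ) - 1)
    nlinarith
  have h1 : ∀ k : ℕ, (3 / 2 : ℝ) ^ k * dist z 1 ≤ dist (z ^ (2 ^ k)) 1 := by
    intro k
    induction k with
    | zero => simp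
    | succ k ih =>
      have h2 := h0 (z ^ (2 ^ k)) (hz _)
      rw [← pow_mul, ← pow_succ] at h2
      rw [pow_succ]
      nlinarith
  have hpos : 0 < dist z 1 := dist_pos.2 hne
  obtain ⟨k, hk⟩ := pow_unbounded_of_one_lt (1 / dist z 1) (show (1 : ℝ) < 3 / 2 by norm_num)
  have h2 := h1 k
  have h3 := hz (2 ^ k)
  rw [div_lt_iff₀ hpos] at hk
  linarith

theorem tF (G : Type) [Group G] [TopologicalSpace G] [IsTopologicalGroup G]
    (Λ : Subgroup G) [CompactSpace (G ⧸ Λ)] (Q Δ : G) (hQ : Q * Δ = Δ * Q)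
    (hd : ∀ h : G, Dense {x : G | ∃ a b : ℤ, ∃ l ∈ Λ, x = Q ^ a * Δ ^ b * h * l})
    (h : G) (O : Set G) (hO : IsOpen O) (hne : O.Nonempty) :
    ∃ i : ℕ, 0 < i ∧ ∃ b : ℤ, ∃ l ∈ Λ, Q ^ i * Δ ^ b * h * l ∈ O := by
  let S : Set G := {x | ∃ i : ℕ, 0 < i ∧ ∃ b : ℤ, ∃ l ∈ Λ, x = Q ^ i * Δ ^ b * h * l}
  have hcl : ∀ (f : G → G), Continuous f → (∀ x ∈ S, f x ∈ S) → ∀ x ∈ closure S, f x ∈ closure S := by
    intro f hf h1 x hx
    exact map_mem_closure hf hx h1
  have hcomm : ∀ (b : ℤ) (i : ℤ), Q ^ i * Δ ^ b = Δ ^ b * Q ^ i := by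
    intro b i
    exact ((show Commute Q Δ from hQ).zpow_zpow i b)
  have hSQ : ∀ x ∈ closure S, Q * x ∈ closure S := by
    apply hcl _ (continuous_const_mul Q)
    rintro _ ⟨i, hi, b, l, hl, rfl⟩
    exact ⟨i + 1, by omega, b, l, hl, by rw [pow_succ']; group⟩
  have hSD : ∀ c : ℤ, ∀ x ∈ closure S, Δ ^ c * x ∈ closure S := by
    intro c
    apply hcl _ (continuous_const_mul (Δ ^ c))
    rintro _ ⟨i, hi, b, l, hl, rfl⟩
    refine ⟨i, hi, c + b, l, hl, ?_⟩
    have h1 := hcomm c i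
    rw [zpow_natCast] at h1
    rw [zpow_add, ← mul_assoc (Q ^ i), h1]
    simp only [mul_assoc]
  have hSL : ∀ x ∈ closure S, ∀ l ∈ Λ, x * l ∈ closure S := by
    intro x hx l hl
    apply hcl (fun x => x * l) (continuous_mul_const l) _ x hx
    rintro _ ⟨i, hi, b, l', hl', rfl⟩
    exact ⟨i, hi, b, l' * l, Λ.mul_mem hl' hl, by simp only [mul_assoc]⟩
  have hSne : (closure S).Nonempty := by
    refine ⟨Q ^ 1 * Δ ^ (0 : ℤ) * h * 1, subset_closure ⟨1, one_pos, 0, 1, Λ.one_mem, rfl⟩⟩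
  let T : ℕ → Set G := fun n => {x | (Q ^ n)⁻¹ * x ∈ closure S}
  have hTc : ∀ n, IsClosed (T n) := fun n =>
    isClosed_closure.preimage (continuous_const_mul _)
  have hTd : ∀ n, T (n + 1) ⊆ T n := by
    intro n x hx
    have h1 := hSQ _ hx
    have h2 : Q * ((Q ^ (n + 1))⁻¹ * x) = (Q ^ n)⁻¹ * x := by
      rw [pow_succ]
      group
    rwa [h2] at h1
  have hTa : Antitone T := antitone_nat_of_succ_le hTd
  have hTl : ∀ n, ∀ x ∈ T n, ∀ l ∈ Λ, x * l ∈ T n := by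
    intro n x hx l hl
    have h1 := hSL _ hx l hl
    change (Q ^ n)⁻¹ * (x * l) ∈ closure S
    rwa [← mul_assoc]
  have hTne : ∀ n, (T n).Nonempty := by
    intro n
    obtain ⟨x, hx⟩ := hSne
    exact ⟨Q ^ n * x, by
      change (Q ^ n)⁻¹ * (Q ^ n * x) ∈ closure S
      rwa [inv_mul_cancel_left]⟩
  have h1 : (⋂ n : ℕ, (QuotientGroup.mk : G → G ⧸ Λ) '' T n).Nonempty := by
    apply IsCompact.nonempty_iInter_of_directed_nonempty_isCompact_isClosed
    · intro i j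
      refine ⟨max i j, Set.image_mono (hTa (le_max_left _ _)),
        Set.image_mono (hTa (le_max_right _ _))⟩
    · exact fun i => (hTne i).image _
    · exact fun i => (closed_image Λ (hTc i) (hTl i)).isCompact
    · exact fun i => closed_image Λ (hTc i) (hTl i)
  obtain ⟨y, hy⟩ := h1
  obtain ⟨x, rfl⟩ := QuotientGroup.mk_surjective y
  have hx : ∀ n, x ∈ T n := fun n => mem_of_mem_image Λ (hTl n) (Set.mem_iInter.1 hy n)
  have hN : ∀ a b : ℤ, ∀ l ∈ Λ, Q ^ a * Δ ^ b * x * l ∈ closure S := by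
    intro a b l hl
    apply hSL _ _ l hl
    rw [hcomm, mul_assoc]
    apply hSD
    obtain ⟨n, rfl | rfl⟩ := a.eq_nat_or_neg
    · have h2 := hx 0
      change (Q ^ 0)⁻¹ * x ∈ closure S at h2
      rw [pow_zero, inv_one, one_mul] at h2
      clear hy
      induction n with
      | zero => simpa using h2
      | succ n ih =>
        have h3 := hSQ _ ih
        rw [← mul_assoc] at h3
        convert h3 using 2
        push_cast
        group
    · have h2 := hx n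
      change (Q ^ n)⁻¹ * x ∈ closure S at h2
      rwa [zpow_neg, zpow_natCast]
  have h2 : closure S = Set.univ := by
    rw [Set.eq_univ_iff_forall]
    intro y
    have h3 := (hd x) y
    refine closure_minimal ?_ isClosed_closure h3
    rintro _ ⟨a, b, l, hl, rfl⟩
    exact hN a b l hl
  obtain ⟨z, hz⟩ := hne
  have h3 : z ∈ closure S := by rw [h2]; trivial
  obtain ⟨w, hw, i, hi, b, l, hl, rfl⟩ := mem_closure_iff.1 h3 O hO hz
  exact ⟨i, hi, b, l, hl, hw⟩



/-- a subgroup generated by connected pieces is connected -/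
theorem preconn_closure {G : Type} [Group G] [TopologicalSpace G] [IsTopologicalGroup G]
    (T : Set G) (hC : ∀ t ∈ T, ∃ C : Set G, IsPreconnected C ∧ 1 ∈ C ∧ t ∈ C ∧
      C ⊆ (Subgroup.closure T : Set G)) :
    IsPreconnected ((Subgroup.closure T : Subgroup G) : Set G) := by
  have key : ∀ x ∈ Subgroup.closure T, ∃ C : Set G, IsPreconnected C ∧ 1 ∈ C ∧ x ∈ C ∧
      C ⊆ (Subgroup.closure T : Set G) := by
    intro x hx
    induction hx using Subgroup.closure_induction with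
    | mem t ht => exact hC t ht
    | one => exact ⟨{1}, isPreconnected_singleton, rfl, rfl, by
        rintro _ rfl
        exact Subgroup.one_mem _⟩
    | mul x y _ _ hx hy =>
      obtain ⟨C, h1, h2, h3, h4⟩ := hx
      obtain ⟨C', h1', h2', h3', h4'⟩ := hy
      refine ⟨(fun p : G × G => p.1 * p.2) '' (C ×ˢ C'),
        (h1.prod h1').image _ (continuous_fst.mul continuous_snd).continuousOn,
        ⟨(1, 1), ⟨h2, h2'⟩, mul_one _⟩, ⟨(x, y), ⟨h3, h3'⟩, rfl⟩, ?_⟩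
      rintro _ ⟨⟨a, b⟩, ⟨ha, hb⟩, rfl⟩
      exact Subgroup.mul_mem _ (h4 ha) (h4' hb)
    | inv x _ hx =>
      obtain ⟨C, h1, h2, h3, h4⟩ := hx
      refine ⟨(fun p : G => p⁻¹) '' C, h1.image _ continuous_inv.continuousOn,
        ⟨1, h2, inv_one⟩, ⟨x, h3, rfl⟩, ?_⟩
      rintro _ ⟨a, ha, rfl⟩
      exact Subgroup.inv_mem _ (h4 ha)
  apply isPreconnected_of_forall 1
  intro x hx
  obtain ⟨C, h1, h2, h3, h4⟩ := key x hx
  exact ⟨C, h4, h2, h3, h1⟩

theorem tP3 (G : Type) [Group G] [TopologicalSpace G] [IsTopologicalGroup G]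
    (A₁ : Subgroup G) (hA : ∀ a ∈ A₁, ∀ b ∈ A₁, a * b = b * a)
    (hG : ∀ x : G, ∃ u ∈ connectedComponent (1 : G), ∃ a ∈ A₁, x = u * a) (n : ℕ) (hn : 1 ≤ n) :
    IsPreconnected (((⊤ : Subgroup G).lowerCentralSeries n : Subgroup G) : Set G) := by
  induction n, hn using Nat.le_induction with
  | base =>
    change IsPreconnected ((Subgroup.closure { x | ∃ p ∈ (⊤ : Subgroup G).lowerCentralSeries 0,
      ∃ q ∈ (⊤ : Subgroup G), ⁅p, q⁆ = x} : Subgroup G) : Set G)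
    apply preconn_closure
    rintro _ ⟨x, -, y, -, rfl⟩
    obtain ⟨u, hu, a, ha, rfl⟩ := hG x
    obtain ⟨u', hu', a', ha', rfl⟩ := hG y
    have h1 : IsPreconnected (connectedComponent (1 : G)) := isPreconnected_connectedComponent
    refine ⟨(fun p : G × G => ⁅p.1 * a, p.2 * a'⁆) ''
      (connectedComponent (1 : G) ×ˢ connectedComponent (1 : G)),
      (h1.prod h1).image _ ?_, ⟨(1, 1), ⟨mem_connectedComponent, mem_connectedComponent⟩, ?_⟩,
      ⟨(u, u'), ⟨hu, hu'⟩, rfl⟩, ?_⟩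
    · simp only [commutatorElement_def]
      fun_prop
    · simp only [one_mul]
      rw [commutatorElement_eq_one_iff_mul_comm]
      exact hA a ha a' ha'
    · rintro _ ⟨⟨s, t⟩, -, rfl⟩
      exact Subgroup.subset_closure ⟨_, trivial, _, trivial, rfl⟩
  | succ n hn ih =>
    change IsPreconnected ((Subgroup.closure { x | ∃ p ∈ (⊤ : Subgroup G).lowerCentralSeries n,
      ∃ q ∈ (⊤ : Subgroup G), ⁅p, q⁆ = x} : Subgroup G) : Set G)
    apply preconn_closure
    rintro _ ⟨x, hx, y, -, rfl⟩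
    refine ⟨(fun p : G => ⁅p, y⁆) '' ((⊤ : Subgroup G).lowerCentralSeries n : Set G),
      ih.image _ ?_, ⟨1, Subgroup.one_mem _, commutatorElement_one_left y⟩, ⟨x, hx, rfl⟩, ?_⟩
    · simp only [commutatorElement_def]
      fun_prop
    · rintro _ ⟨s, hs, rfl⟩
      exact Subgroup.subset_closure ⟨_, hs, _, trivial, rfl⟩

theorem tP5 (G : Type) [Group G] [TopologicalSpace G] [IsTopologicalGroup G]
    (Λ S D : Subgroup G) [CompactSpace (G ⧸ Λ)] (hΛ : Λ ≤ S) (hSD : S ≤ D)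
    (hS : IsClosed (S : Set G)) (hD : IsClosed (D : Set G))
    (hcom : ∀ x ∈ D, ∀ y ∈ D, x * y * x⁻¹ * y⁻¹ ∈ S) (hq : ∃ q ∈ D, q ∉ S) :
    ∃ χ : D →* Circle, Continuous χ ∧ (∀ q : D, (q : G) ∈ S → χ q = 1) ∧ ∃ q : D, χ q ≠ 1 := by
  classical
  have hnorm : (S.subgroupOf D).Normal := by
    constructor
    intro y hy x
    rw [Subgroup.mem_subgroupOf] at hy ⊢
    have h1 := S.mul_mem (hcom x x.2 y y.2) hy
    have h2 : (x : G) * y * (x : G)⁻¹ * (y : G)⁻¹ * y = ((x * y * x⁻¹ : D) : G) := by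
      simp
    rwa [h2] at h1
  have hScl : IsClosed ((S.subgroupOf D : Subgroup D) : Set D) := hS.preimage continuous_subtype_val
  let _ : CommGroup (D ⧸ S.subgroupOf D) :=
    { (inferInstance : Group (D ⧸ S.subgroupOf D)) with
      mul_comm := by
        intro a b
        obtain ⟨x, rfl⟩ := QuotientGroup.mk_surjective a
        obtain ⟨y, rfl⟩ := QuotientGroup.mk_surjective b
        rw [← QuotientGroup.mk_mul, ← QuotientGroup.mk_mul, QuotientGroup.eq,
          Subgroup.mem_subgroupOf]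
        have h1 := hcom (y⁻¹ : D) (y⁻¹).2 (x⁻¹ : D) (x⁻¹).2
        have h2 : (((x * y)⁻¹ * (y * x) : D) : G) =
          ((y⁻¹ : D) : G) * ((x⁻¹ : D) : G) * ((y⁻¹ : D) : G)⁻¹ * ((x⁻¹ : D) : G)⁻¹ := by
          simp [mul_assoc]
        rwa [h2] }
  -- compactness
  let f : G ⧸ Λ → G ⧸ S := Subgroup.quotientMapOfLE hΛ
  have hfc : Continuous f := by
    apply continuous_quot_lift
    exact continuous_quot_mk
  have hfs : Function.Surjective f := by
    intro y
    obtain ⟨z, rfl⟩ := QuotientGroup.mk_surjective y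
    exact ⟨(z : G ⧸ Λ), rfl⟩
  have hcS : CompactSpace (G ⧸ S) := hfs.compactSpace hfc
  let i : D ⧸ S.subgroupOf D → G ⧸ S := Quotient.map' (fun x : D => (x : G)) (by
    intro a b hab
    rw [QuotientGroup.leftRel_apply] at hab ⊢
    exact hab)
  have hi : ∀ x : D, i (x : D ⧸ S.subgroupOf D) = ((x : G) : G ⧸ S) := fun x => rfl
  have hic : Continuous i := by
    apply continuous_quot_lift
    exact continuous_quot_mk.comp continuous_subtype_val
  have hii : Function.Injective i := by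
    intro a b hab
    obtain ⟨x, rfl⟩ := QuotientGroup.mk_surjective a
    obtain ⟨y, rfl⟩ := QuotientGroup.mk_surjective b
    rw [hi, hi, QuotientGroup.eq] at hab
    rw [QuotientGroup.eq]
    exact hab
  have hicl : IsClosedMap i := by
    intro F hF
    have h1 : IsQuotientMap (QuotientGroup.mk : G → G ⧸ S) := isQuotientMap_quotient_mk'
    rw [← h1.isClosed_preimage]
    have h2 : (QuotientGroup.mk : G → G ⧸ S) ⁻¹' (i '' F) =
        Subtype.val '' ((QuotientGroup.mk : D → D ⧸ S.subgroupOf D) ⁻¹' F) := by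
      ext x
      constructor
      · rintro ⟨a, ha, hax⟩
        obtain ⟨y, rfl⟩ := QuotientGroup.mk_surjective a
        rw [hi, QuotientGroup.eq] at hax
        have hx : x ∈ D := by
          have := D.mul_mem y.2 (hSD hax)
          rwa [mul_inv_cancel_left] at this
        refine ⟨⟨x, hx⟩, ?_, rfl⟩
        have h3 : ((⟨x, hx⟩ : D) : D ⧸ S.subgroupOf D) = (y : D ⧸ S.subgroupOf D) := by
          rw [eq_comm, QuotientGroup.eq]
          exact hax
        change ((⟨x, hx⟩ : D) : D ⧸ S.subgroupOf D) ∈ F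
        rwa [h3]
      · rintro ⟨y, hy, rfl⟩
        exact ⟨_, hy, hi y⟩
    rw [h2]
    exact hD.isClosedEmbedding_subtypeVal.isClosedMap _
      (hF.preimage continuous_quot_mk)
  have hcK : CompactSpace (D ⧸ S.subgroupOf D) :=
    (IsClosedEmbedding.of_continuous_injective_isClosedMap hic hii hicl).compactSpace
  have hT3 : T3Space (D ⧸ S.subgroupOf D) := QuotientGroup.instT3Space (S.subgroupOf D) (hN := hScl)
  have hT2 : T2Space (D ⧸ S.subgroupOf D) := inferInstance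
  obtain ⟨q, hqD, hqS⟩ := hq
  have hne : ((⟨q, hqD⟩ : D) : D ⧸ S.subgroupOf D) ≠ 1 := by
    intro h1
    rw [QuotientGroup.eq_one_iff] at h1
    exact hqS h1
  obtain ⟨χ, hχ, hχ1⟩ := Pool.Agent.TH264.Bridge.char_sep_mul (D ⧸ S.subgroupOf D) _ hne
  refine ⟨χ.comp (QuotientGroup.mk' (S.subgroupOf D)), hχ.comp continuous_quot_mk, ?_, ⟨q, hqD⟩,
    hχ1⟩
  intro x hx
  have h1 : ((x : D) : D ⧸ S.subgroupOf D) = 1 := by
    rw [QuotientGroup.eq_one_iff]
    exact hx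
  change χ ((x : D) : D ⧸ S.subgroupOf D) = 1
  rw [h1, map_one]


theorem done_X : Pool.Agent.Y329.NS.S_X := by
  intro G _ _ _ Γ U _ _ hU g hd x
  exact tX G Γ U hU g hd x

theorem done_P4 : Pool.Agent.Y329.NS.S_P4 := tP4

theorem done_F : Pool.Agent.Y329.NS.S_F := by
  intro G _ _ _ Λ _ Q Δ hQ hd h O hO hne
  exact tF G Λ Q Δ hQ hd h O hO hne

theorem done_P3 : Pool.Agent.Y329.NS.S_P3 := by
  intro G _ _ _ A₁ hA hG n hn
  exact tP3 G A₁ hA hG n hn

theorem done_P5 : Pool.Agent.Y329.NS.S_P5 := by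
  intro G _ _ _ Λ S D _ h1 h2 h3 h4 h5 h6
  exact tP5 G Λ S D h1 h2 h3 h4 h5 h6

end Pool.Agent.Y179.NS
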